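import Pool.Agent.helper83.FI4B.Spec

set_option autoImplicit false

namespace Pool.Agent.FI4B

open Pool.Agent.helper58.DC Pool.Agent.DI Pool.Agent.GR Pool.Agent.OB Pool.Agent.DR Pool.Agent.FI Pool.Agent.FI3 Pool.Agent.FI4

theorem BPL_line (hBSM : BSM_stmt) (p : ℕ) [Fact p.Prime] (I : Type) [Fintype I] (A B C : I → ZMod p)
    (hI : Fintype.card I + 2 ≤ p) (α β γ : ZMod p) :
    ∑ s : ZMod p, ∑ t : ZMod p, (if α + β * s + γ * t = 0 then ∏ i, (A i + B i * s + C i * t) else 0) = 0 := by
  rcases eq_or_ne γ 0 with hγ | hγ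
  · refine Finset.sum_eq_zero fun s _ => ?_
    have h1 := hBSM p I (fun i => A i + B i * s) C hI
    by_cases h : α + β * s = 0
    · refine Eq.trans (Finset.sum_congr rfl fun t _ => ?_) h1
      rw [hγ, zero_mul, add_zero, if_pos h]
    · refine Finset.sum_eq_zero fun t _ => ?_
      rw [hγ, zero_mul, add_zero, if_neg h]
  · have h1 := hBSM p I (fun i => A i - C i * (α * γ⁻¹)) (fun i => B i - C i * (β * γ⁻¹)) hI
    refine Eq.trans (Finset.sum_congr rfl fun s _ => ?_) h1
    rw [Finset.sum_eq_single (-(α + β * s) * γ⁻¹)]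
    · have h2 : α + β * s + γ * (-(α + β * s) * γ⁻¹) = 0 := by
        field_simp
        ring
      rw [if_pos h2]
      refine Finset.prod_congr rfl fun i _ => ?_
      ring
    · intro t _ ht
      rw [if_neg]
      intro h
      apply ht
      have h3 : γ * t = -(α + β * s) := by linear_combination h
      rw [← h3]
      field_simp
    · intro h
      exact absurd (Finset.mem_univ _) h

theorem BPL (hBSM : BSM_stmt) : BPL_stmt := by
  classical
  intro p _ J N _ _ c b α β γ α' β' γ' k hk hα' hk0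
  by_contra hlt
  rw [not_le] at hlt
  obtain ⟨T, hT⟩ : ∃ T : Finset (ZMod p × ZMod p), T = Finset.univ.filter (fun q : ZMod p × ZMod p =>
    (∀ j, α' j + β' j * q.1 + γ' j * q.2 ≠ 0) ∧ k q.1 q.2 ≠ 0) := ⟨_, rfl⟩
  have hTn : {q : ZMod p × ZMod p | (∀ j, α' j + β' j * q.1 + γ' j * q.2 ≠ 0) ∧ k q.1 q.2 ≠ 0}.ncard = T.card := by
    rw [← Set.ncard_coe_finset, hT]
    congr 1
    ext q
    simp
  rw [hTn] at hlt
  have h0T : ((0 : ZMod p), (0 : ZMod p)) ∈ T := by
    rw [hT, Finset.mem_filter]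
    refine ⟨Finset.mem_univ _, fun j => ?_, hk0⟩
    simpa using hα' j
  -- the affine functions
  obtain ⟨A, hA⟩ : ∃ A : N ⊕ {w : ZMod p × ZMod p // w ∈ T.erase (0, 0)} → ZMod p,
    A = Sum.elim α' (fun _ => 1) := ⟨_, rfl⟩
  obtain ⟨B, hB⟩ : ∃ B : N ⊕ {w : ZMod p × ZMod p // w ∈ T.erase (0, 0)} → ZMod p,
    B = Sum.elim β' (fun w => if w.1.1 ≠ 0 then -(w.1.1)⁻¹ else 0) := ⟨_, rfl⟩
  obtain ⟨C, hC⟩ : ∃ C : N ⊕ {w : ZMod p × ZMod p // w ∈ T.erase (0, 0)} → ZMod p,
    C = Sum.elim γ' (fun w => if w.1.1 ≠ 0 then 0 else -(w.1.2)⁻¹) := ⟨_, rfl⟩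
  have hcard : Fintype.card (N ⊕ {w : ZMod p × ZMod p // w ∈ T.erase (0, 0)}) + 2 ≤ p := by
    rw [Fintype.card_sum, Fintype.card_coe, Finset.card_erase_of_mem h0T]
    have : 0 < T.card := Finset.card_pos.2 ⟨_, h0T⟩
    omega
  obtain ⟨g, hg⟩ : ∃ g : ZMod p → ZMod p → ZMod p, g = fun s t => ∏ i, (A i + B i * s + C i * t) := ⟨_, rfl⟩
  have hline : ∀ x y z : ZMod p, ∑ s : ZMod p, ∑ t : ZMod p, (if x + y * s + z * t = 0 then g s t else 0) = 0 := by
    intro x y z
    rw [hg]
    exact BPL_line hBSM p _ A B C hcard x y z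
  have hfull : ∑ s : ZMod p, ∑ t : ZMod p, g s t = 0 := by
    have := hline 0 0 0
    simpa using this
  have hsum : ∑ s : ZMod p, ∑ t : ZMod p, k s t * g s t = 0 := by
    have h1 : ∀ s t : ZMod p, k s t * g s t = c * g s t + ∑ j, b j * (if α j + β j * s + γ j * t = 0 then g s t else 0) := by
      intro s t
      rw [hk, add_mul, Finset.sum_mul]
      congr 1
      refine Finset.sum_congr rfl fun j _ => ?_
      split_ifs
      · rfl
      · rw [zero_mul, mul_zero]
    simp only [h1, Finset.sum_add_distrib, ← Finset.mul_sum]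
    rw [hfull, mul_zero, zero_add]
    have h2 : ∑ s : ZMod p, ∑ t : ZMod p, ∑ j, b j * (if α j + β j * s + γ j * t = 0 then g s t else 0) =
        ∑ j, b j * ∑ s : ZMod p, ∑ t : ZMod p, (if α j + β j * s + γ j * t = 0 then g s t else 0) := by
      have h3 : ∀ s : ZMod p, ∑ t : ZMod p, ∑ j, b j * (if α j + β j * s + γ j * t = 0 then g s t else 0) =
          ∑ j, ∑ t : ZMod p, b j * (if α j + β j * s + γ j * t = 0 then g s t else 0) := fun s => Finset.sum_comm
      rw [Finset.sum_congr rfl fun s _ => h3 s, Finset.sum_comm]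
      refine Finset.sum_congr rfl fun j _ => ?_
      rw [Finset.mul_sum]
      refine Finset.sum_congr rfl fun s _ => ?_
      rw [Finset.mul_sum]
    rw [h2]
    refine Finset.sum_eq_zero fun j _ => ?_
    rw [hline, mul_zero]
  have hout : ∀ s t : ZMod p, (s, t) ≠ ((0 : ZMod p), (0 : ZMod p)) → k s t * g s t = 0 := by
    intro s t hst
    by_cases hmem : (s, t) ∈ T
    · have hw : (s, t) ∈ T.erase (0, 0) := Finset.mem_erase.2 ⟨hst, hmem⟩
      have : g s t = 0 := by
        rw [hg]
        refine Finset.prod_eq_zero (Finset.mem_univ (Sum.inr ⟨(s, t), hw⟩)) ?_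
        rw [hA, hB, hC]
        simp only [Sum.elim_inr]
        by_cases hs : s = 0
        · have ht : t ≠ 0 := by
            rintro rfl
            exact hst (by rw [hs])
          simp [hs, ht]
        · simp [hs]
      rw [this, mul_zero]
    · rw [hT, Finset.mem_filter] at hmem
      by_cases hk1 : k s t = 0
      · rw [hk1, zero_mul]
      · have hex : ∃ j, α' j + β' j * s + γ' j * t = 0 := by
          by_contra hcon
          apply hmem
          refine ⟨Finset.mem_univ _, fun j h => hcon ⟨j, h⟩, hk1⟩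
        obtain ⟨j, hj⟩ := hex
        have : g s t = 0 := by
          rw [hg]
          refine Finset.prod_eq_zero (Finset.mem_univ (Sum.inl j)) ?_
          rw [hA, hB, hC]
          exact hj
        rw [this, mul_zero]
  have hg0 : g 0 0 ≠ 0 := by
    rw [hg]
    refine Finset.prod_ne_zero_iff.2 fun i _ => ?_
    rw [hA]
    rcases i with j | w
    · simpa using hα' j
    · simp
  have hval : ∑ s : ZMod p, ∑ t : ZMod p, k s t * g s t = k 0 0 * g 0 0 := by
    rw [Finset.sum_eq_single (0 : ZMod p), Finset.sum_eq_single (0 : ZMod p)]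
    · intro t _ ht
      exact hout 0 t fun h => ht (congrArg Prod.snd h)
    · intro h
      exact absurd (Finset.mem_univ _) h
    · intro s _ hs
      refine Finset.sum_eq_zero fun t _ => hout s t fun h => hs (congrArg Prod.fst h)
    · intro h
      exact absurd (Finset.mem_univ _) h
  rw [hval] at hsum
  exact mul_ne_zero hk0 hg0 hsum

end Pool.Agent.FI4B
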